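import Pool.Agent.Y786.FR.Cone
import Pool.Agent.Helper884.IC.Compl

set_option autoImplicit false

/-!
# Artin L-functions of the free subgroups of the symmetric group
-/

namespace Pool.Agent.Y786.FR

open Pool.Agent.H302R2 Pool.Agent.H541R3.ART Pool.Agent.W446.AS Equiv Filter Topology

open Classical in
/-- The induced class function: `ind ι χ` is the character of `Γ` induced from the character `χ` of
`G` along the injective homomorphism `ι : G → Γ`. -/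
noncomputable def ind {Γ G : Type} [Group Γ] [Group G] (ι : G →* Γ) (χ : G → ℂ) (σ : Γ) : ℂ :=
  (Nat.card G : ℂ)⁻¹ * ∑ᶠ τ : Γ, ∑ᶠ g : G, if ι g = τ⁻¹ * σ * τ then χ g else 0

/-- `M χ` is, for every irreducible character `χ` of `G`, the product of the functions `L ψ` to the
power `⟨ψ ∘ ι, χ⟩` near `s₀`. -/
def Induced {Γ G : Type} [Group Γ] [Group G] {s₀ : ℂ} (ι : G →* Γ) (A : ArtinData Γ s₀)
    (M : (G → ℂ) → ℂ → ℂ) : Prop :=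
  ∀ χ ∈ Irr G, ∀ v : (Γ → ℂ) → ℕ,
    (∀ ψ ∈ Irr Γ, ∑ᶠ g : G, ψ (ι g) * χ g⁻¹ = (v ψ : ℂ) * (Nat.card G : ℂ)) →
    M χ =ᶠ[𝓝[≠] s₀] fun s => ∏ᶠ ψ ∈ Irr Γ, A.L ψ s ^ v ψ

section

variable {Γ G : Type} [Group Γ] [Finite Γ] [Group G] [Finite G]

open Classical in
lemma ind_eq [Fintype Γ] [Fintype G] (ι : G →* Γ) (χ : G → ℂ) (σ : Γ) :
    ind ι χ σ = (Nat.card G : ℂ)⁻¹ * ∑ τ : Γ, ∑ g : G, if ι g = τ⁻¹ * σ * τ then χ g else 0 := by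
  unfold ind
  rw [finsum_eq_sum_of_fintype]
  congr 1
  refine Finset.sum_congr rfl fun τ _ => ?_
  rw [finsum_eq_sum_of_fintype]

lemma ind_class [Fintype Γ] (ι : G →* Γ) (χ : G → ℂ) :
    Pool.Agent.Helper884.IC.IsClass (ind ι χ) := by
  classical
  have : Fintype G := Fintype.ofFinite G
  intro σ ρ
  rw [ind_eq, ind_eq]
  congr 1
  rw [← Equiv.sum_comp (Equiv.mulLeft ρ)]
  refine Finset.sum_congr rfl fun τ _ => Finset.sum_congr rfl fun g _ => ?_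
  have h1 : (Equiv.mulLeft ρ τ)⁻¹ * (ρ * σ * ρ⁻¹) * (Equiv.mulLeft ρ τ) = τ⁻¹ * σ * τ := by
    rw [Equiv.coe_mulLeft]
    group
  rw [h1]

/-- Frobenius reciprocity -/
lemma ind_pair [Fintype Γ] [Fintype G] (ι : G →* Γ) (χ : G → ℂ) {ψ : Γ → ℂ}
    (hψ : ∀ g h, ψ (h * g * h⁻¹) = ψ g) :
    ∑ σ : Γ, ind ι χ σ * ψ σ⁻¹ =
      (Nat.card G : ℂ)⁻¹ * (Nat.card Γ : ℂ) * ∑ g : G, ψ (ι g) * χ g⁻¹ := by
  classical
  have h1 : ∀ σ : Γ, ind ι χ σ * ψ σ⁻¹ = (Nat.card G : ℂ)⁻¹ *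
      ∑ τ : Γ, ∑ g : G, (if ι g = τ⁻¹ * σ * τ then χ g * ψ σ⁻¹ else 0) := by
    intro σ
    rw [ind_eq, mul_assoc, Finset.sum_mul]
    congr 1
    refine Finset.sum_congr rfl fun τ _ => ?_
    rw [Finset.sum_mul]
    refine Finset.sum_congr rfl fun g _ => ?_
    split_ifs <;> simp
  rw [Finset.sum_congr rfl (fun σ _ => h1 σ), ← Finset.mul_sum, Finset.sum_comm, mul_assoc]
  congr 1
  have h2 : ∀ τ : Γ, ∑ σ : Γ, ∑ g : G, (if ι g = τ⁻¹ * σ * τ then χ g * ψ σ⁻¹ else 0) =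
      ∑ g : G, ψ (ι g) * χ g⁻¹ := by
    intro τ
    rw [Finset.sum_comm, ← Equiv.sum_comp (Equiv.inv G)]
    refine Finset.sum_congr rfl fun g _ => ?_
    rw [Finset.sum_eq_single (τ * ι g⁻¹ * τ⁻¹)]
    · rw [Equiv.inv_apply, if_pos (by group)]
      have h3 : (τ * ι g⁻¹ * τ⁻¹)⁻¹ = τ * ι g * τ⁻¹ := by
        rw [map_inv]; group
      rw [h3, hψ, mul_comm]
    · intro σ _ hσ
      rw [if_neg]
      intro h
      apply hσ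
      rw [Equiv.inv_apply] at h
      rw [h]
      group
    · intro h
      exact absurd (Finset.mem_univ _) h
  rw [Finset.sum_congr rfl (fun τ _ => h2 τ), Finset.sum_const, Finset.card_univ, nsmul_eq_mul,
    Nat.card_eq_fintype_card]

/-- pairings along a homomorphism -/
lemma theta_pair_hom [Fintype G] (n : (Γ → ℂ) → ℤ) (ι : G →* Γ) (χ : G → ℂ) (v : (Γ → ℂ) → ℕ)
    (hv : ∀ ψ ∈ Irr Γ, ∑ᶠ g : G, ψ (ι g) * χ g⁻¹ = (v ψ : ℂ) * (Nat.card G : ℂ)) :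
    ∑ g : G, theta n (ι g) * χ g⁻¹ = ((∑ ψ ∈ irrF Γ, (v ψ : ℤ) * n ψ : ℤ) : ℂ) * Nat.card G := by
  unfold theta
  simp_rw [Finset.sum_mul]
  rw [Finset.sum_comm, Int.cast_sum, Finset.sum_mul]
  refine Finset.sum_congr rfl fun ψ hψ => ?_
  have h1 := hv ψ (mem_irrF.mp hψ)
  rw [finsum_eq_sum_of_fintype] at h1
  simp_rw [mul_assoc]
  rw [← Finset.mul_sum, h1]
  push_cast
  ring

omit [Finite G] in
/-- orders of the induced L-functions -/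
lemma order_M {s₀ : ℂ} (A : ArtinData Γ s₀) {f : ℂ → ℂ} (v : (Γ → ℂ) → ℕ)
    (hM : f =ᶠ[𝓝[≠] s₀] fun s => ∏ᶠ ψ ∈ Irr Γ, A.L ψ s ^ v ψ) :
    meromorphicOrderAt f s₀ = ((∑ ψ ∈ irrF Γ, (v ψ : ℤ) * A.ord ψ : ℤ) : WithTop ℤ) := by
  classical
  rw [meromorphicOrderAt_congr hM]
  have h1 : (fun s => ∏ᶠ ψ ∈ Irr Γ, A.L ψ s ^ v ψ)
      = fun s => ∏ χ ∈ irrF Γ, (A.L χ ^ v χ) s := by
    funext s
    rw [finprod_mem_eq_finite_toFinset_prod _ (irr_finite (G := Γ))]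
    rfl
  rw [h1, meromorphicOrderAt_fun_prod (fun χ hχ => ((A.mero χ (mem_irrF.mp hχ)).1).pow _)]
  rw [WithTop.coe_sum]
  refine Finset.sum_congr rfl fun χ hχ => ?_
  rw [meromorphicOrderAt_pow ((A.mero χ (mem_irrF.mp hχ)).1), ← A.coe_ord (mem_irrF.mp hχ)]
  push_cast
  rfl

/-- equality of the characters from the equality of the multiplicities -/
lemma ind_identity (ι : G →* Γ) (χ : G → ℂ) (v : (Γ → ℂ) → ℕ)
    (hv : ∀ ψ ∈ Irr Γ, ∑ᶠ g : G, ψ (ι g) * χ g⁻¹ = (v ψ : ℂ) * (Nat.card G : ℂ))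
    {k l : ℕ} (H : Fin l → Subgroup Γ) (lam : ∀ i, H i →* ℂˣ) (w : Fin l → (Γ → ℂ) → ℕ)
    (hw : ∀ i, ∀ ψ ∈ Irr Γ, ∑ᶠ x : H i, ψ x * (((lam i x)⁻¹ : ℂˣ) : ℂ) =
        (w i ψ : ℂ) * (Nat.card (H i) : ℂ))
    (hkv : ∀ ψ ∈ Irr Γ, k * v ψ = ∑ i, w i ψ) (σ : Γ) :
    (k : ℂ) * ind ι χ σ = ∑ i, ind (H i).subtype (fun h => ((lam i h : ℂˣ) : ℂ)) σ := by
  classical
  have : Fintype Γ := Fintype.ofFinite Γ
  have : Fintype G := Fintype.ofFinite G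
  have hG : (Nat.card G : ℂ) ≠ 0 := by exact_mod_cast Nat.card_pos.ne'
  set F : Γ → ℂ := fun σ => (k : ℂ) * ind ι χ σ -
    ∑ i, ind (H i).subtype (fun h => ((lam i h : ℂˣ) : ℂ)) σ with hF
  have hcl : Pool.Agent.Helper884.IC.IsClass F := by
    intro a b
    simp only [hF]
    rw [ind_class ι χ a b]
    congr 1
    exact Finset.sum_congr rfl fun i _ => ind_class _ _ a b
  have hz : F = 0 := by
    apply Pool.Agent.Helper884.IC.class_eq_zero F hcl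
    rintro ψ ⟨V, _, _, _, ρ, hρ, hψρ⟩
    have hψ : ψ ∈ Irr Γ := by
      rw [hψρ]
      exact irr_of_irred ((irred_iff ρ).mpr hρ)
    have hψc : ∀ g h, ψ (h * g * h⁻¹) = ψ g := fun g h => Irr.conj hψ g h
    unfold Pool.Agent.Helper884.IC.B
    have h1 : ∑ g : Γ, F g * ψ g⁻¹ = (k : ℂ) * ∑ g : Γ, ind ι χ g * ψ g⁻¹ -
        ∑ i, ∑ g : Γ, ind (H i).subtype (fun h => ((lam i h : ℂˣ) : ℂ)) g * ψ g⁻¹ := by
      rw [Finset.mul_sum, Finset.sum_comm, ← Finset.sum_sub_distrib]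
      refine Finset.sum_congr rfl fun g _ => ?_
      simp only [hF]
      rw [sub_mul, Finset.sum_mul]
      ring
    have h2 : ∑ g : Γ, ind ι χ g * ψ g⁻¹ = (v ψ : ℂ) * Nat.card Γ := by
      rw [ind_pair ι χ hψc, ← finsum_eq_sum_of_fintype, hv ψ hψ]
      field_simp
    have h3 : ∀ i, ∑ g : Γ, ind (H i).subtype (fun h => ((lam i h : ℂˣ) : ℂ)) g * ψ g⁻¹ =
        (w i ψ : ℂ) * Nat.card Γ := by
      intro i
      have : Fintype (H i) := Fintype.ofFinite _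
      have hH : (Nat.card (H i) : ℂ) ≠ 0 := by exact_mod_cast Nat.card_pos.ne'
      rw [ind_pair (H i).subtype _ hψc]
      have h4 : ∑ g : H i, ψ ((H i).subtype g) * ((lam i g⁻¹ : ℂˣ) : ℂ) =
          (w i ψ : ℂ) * (Nat.card (H i) : ℂ) := by
        rw [← hw i ψ hψ, finsum_eq_sum_of_fintype]
        exact Finset.sum_congr rfl fun g _ => by rw [map_inv]; rfl
      rw [h4]
      field_simp
    rw [h1, h2, Finset.sum_congr rfl (fun i _ => h3 i), ← Finset.sum_mul]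
    have h5 : (k : ℂ) * (v ψ : ℂ) = ∑ i, (w i ψ : ℂ) := by exact_mod_cast hkv ψ hψ
    rw [← h5]
    ring
  have := congrFun hz σ
  simp only [hF, Pi.zero_apply] at this
  exact sub_eq_zero.mp this

/-- the corresponding identity of L-functions -/
lemma L_identity {s₀ : ℂ} (A : ArtinData Γ s₀) {f : ℂ → ℂ} (v : (Γ → ℂ) → ℕ)
    (hM : f =ᶠ[𝓝[≠] s₀] fun s => ∏ᶠ ψ ∈ Irr Γ, A.L ψ s ^ v ψ)
    {k l : ℕ} (H : Fin l → Subgroup Γ) (lam : ∀ i, H i →* ℂˣ) (w : Fin l → (Γ → ℂ) → ℕ)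
    (hw : ∀ i, ∀ ψ ∈ Irr Γ, ∑ᶠ x : H i, ψ x * (((lam i x)⁻¹ : ℂˣ) : ℂ) =
        (w i ψ : ℂ) * (Nat.card (H i) : ℂ))
    (hkv : ∀ ψ ∈ Irr Γ, k * v ψ = ∑ i, w i ψ) :
    (fun s => f s ^ k) =ᶠ[𝓝[≠] s₀] fun s => ∏ i, A.Lin (H i) (lam i) s := by
  classical
  have h1 : ∀ᶠ s in 𝓝[≠] s₀, ∀ i, A.Lin (H i) (lam i) s = ∏ᶠ ψ ∈ Irr Γ, A.L ψ s ^ w i ψ := by
    rw [eventually_all]
    intro i
    exact A.induce (H i) (lam i) (w i) (hw i)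
  filter_upwards [hM, h1] with s hs1 hs2
  rw [hs1, Finset.prod_congr rfl (fun i _ => hs2 i)]
  have h2 : ∀ u : (Γ → ℂ) → ℕ, ∏ᶠ ψ ∈ Irr Γ, A.L ψ s ^ u ψ = ∏ ψ ∈ irrF Γ, A.L ψ s ^ u ψ := by
    intro u
    rw [finprod_mem_eq_finite_toFinset_prod _ (irr_finite (G := Γ))]
    rfl
  rw [h2, Finset.prod_congr rfl (fun i _ => h2 (w i)), Finset.prod_comm, ← Finset.prod_pow]
  refine Finset.prod_congr rfl fun ψ hψ => ?_
  rw [← pow_mul, Finset.prod_pow_eq_pow_sum, ← hkv ψ (mem_irrF.mp hψ), mul_comm]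

end

/-- **Main theorem.** -/
theorem main (N : ℕ) (ε : ℝ) (hε : 0 < ε) : ∃ m₀ : ℕ, 0 < m₀ ∧
    (∀ (G : Type) [Group G] [Finite G], Nat.card G ≤ N →
      ∃ ι : G →* Perm (Fin m₀), ∀ g : G, g ≠ 1 → ∀ x, ι g x ≠ x) ∧
    ∀ m : ℕ, 0 < m → m₀ ∣ m → ∀ (Γ : Type) [Group Γ] [Finite Γ] (j : Perm (Fin m) →* Γ)
      (G : Type) [Group G] [Finite G], Nat.card G ≤ N → ∀ ι : G →* Perm (Fin m),
      (∀ g : G, g ≠ 1 → ∀ x, ι g x ≠ x) →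
      (∀ χ ∈ Irr G, ∃ (k l : ℕ) (H : Fin l → Subgroup Γ) (lam : ∀ i, H i →* ℂˣ), 0 < k ∧
        (∀ σ, (k : ℂ) * ind (j.comp ι) χ σ =
          ∑ i, ind (H i).subtype (fun h => ((lam i h : ℂˣ) : ℂ)) σ) ∧
        ∀ (s₀ : ℂ) (A : ArtinData Γ s₀) (M : (G → ℂ) → ℂ → ℂ), Induced (j.comp ι) A M →
          (fun s => M χ s ^ k) =ᶠ[𝓝[≠] s₀] fun s => ∏ i, A.Lin (H i) (lam i) s) ∧
      ∀ (s₀ : ℂ) (A : ArtinData Γ s₀) (M : (G → ℂ) → ℂ → ℂ), Induced (j.comp ι) A M →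
        ∃ o : (G → ℂ) → ℤ, (∀ χ ∈ Irr G, meromorphicOrderAt (M χ) s₀ = o χ ∧ 0 ≤ o χ) ∧
          ∀ χ ∈ Irr G, χ ≠ (fun _ => 1) → ∀ χ' ∈ Irr G,
            o χ * (χ' 1).re ≤ (1 + ε) * (o χ' * (χ 1).re) ∧ (0 < o χ → 0 < o χ') := by
  classical
  obtain ⟨m₀, hm₀, hm⟩ := free_mult N ε hε
  refine ⟨m₀ * N.factorial, Nat.mul_pos hm₀ N.factorial_pos, ?_, ?_⟩
  · intro G _ _ hG
    obtain ⟨e, he⟩ := exists_freeHom G (m := m₀ * N.factorial)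
      ((Nat.dvd_factorial Nat.card_pos hG).trans (Nat.dvd_mul_left _ _))
    exact ⟨e, he⟩
  intro m hmpos hdvd' Γ _ _ j G _ _ hG ι hι
  have hdvd : m₀ ∣ m := (Nat.dvd_mul_right _ _).trans hdvd'
  have : Fintype G := Fintype.ofFinite G
  have hG' : Fintype.card G ≤ N := by rwa [← Nat.card_eq_fintype_card]
  choose! v hv using fun (χ : G → ℂ) (hχ : χ ∈ Irr G) (ψ : Γ → ℂ)
    (hψ : ψ ∈ Irr Γ) => exists_mult_hom hψ (j.comp ι) hχ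
  have hpair : ∀ n : (Γ → ℂ) → ℤ, ∀ χ ∈ Irr G,
      ∑ g : G, theta n (j (ι g)) * χ g⁻¹ =
        ((∑ ψ ∈ irrF Γ, (v χ ψ : ℤ) * n ψ : ℤ) : ℂ) * Fintype.card G := by
    intro n χ hχ
    have := theta_pair_hom n (j.comp ι) χ (v χ) (hv χ hχ)
    rw [Nat.card_eq_fintype_card] at this
    exact this
  refine ⟨?_, ?_⟩
  · intro χ hχ
    obtain ⟨k, l, H, lam, w, hk, hw, hkv⟩ := cone_of_heilbronn (Γ := Γ) (v χ) (by
      intro n hn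
      exact (hm m hmpos hdvd (fun σ => theta n (j σ)) (hn.comp j) G hG' ι hι
        (fun χ => ∑ ψ ∈ irrF Γ, (v χ ψ : ℤ) * n ψ) (hpair n)).1 χ hχ)
    refine ⟨k, l, H, lam, hk, ind_identity (j.comp ι) χ (v χ) (hv χ hχ) H lam w hw hkv, ?_⟩
    intro s₀ A M hM
    exact L_identity A (v χ) (hM χ hχ (v χ) (hv χ hχ)) H lam w hw hkv
  · intro s₀ A M hM
    obtain ⟨h1, h2⟩ := hm m hmpos hdvd (fun σ => theta A.ord (j σ)) (A.isHeilbronn.comp j) G hG' ι hι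
      (fun χ => ∑ ψ ∈ irrF Γ, (v χ ψ : ℤ) * A.ord ψ) (hpair A.ord)
    refine ⟨fun χ => ∑ ψ ∈ irrF Γ, (v χ ψ : ℤ) * A.ord ψ, ?_, ?_⟩
    · intro χ hχ
      exact ⟨order_M A (v χ) (hM χ hχ (v χ) (hv χ hχ)), h1 χ hχ⟩
    · intro χ hχ hne χ' hχ'
      have h3 := h2 χ hχ hne χ' hχ'
      refine ⟨h3, fun h4 => ?_⟩
      obtain ⟨d, hd, hd1⟩ := irr_deg hχ
      obtain ⟨d', hd', hd1'⟩ := irr_deg hχ'
      rw [hd1, hd1', Complex.natCast_re, Complex.natCast_re] at h3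
      by_contra h5
      have h6 : (∑ ψ ∈ irrF Γ, (v χ' ψ : ℤ) * A.ord ψ) ≤ 0 := not_lt.mp h5
      have h7 : ((∑ ψ ∈ irrF Γ, (v χ' ψ : ℤ) * A.ord ψ : ℤ) : ℝ) ≤ 0 := by
        exact_mod_cast h6
      have h8 : (0 : ℝ) < ((∑ ψ ∈ irrF Γ, (v χ ψ : ℤ) * A.ord ψ : ℤ) : ℝ) := by
        exact_mod_cast h4
      have h9 : (0 : ℝ) < d' := by exact_mod_cast hd'
      have h10 : (0 : ℝ) < d := by exact_mod_cast hd
      have h11 := mul_pos h8 h9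
      have h12 : (1 + ε) * (((∑ ψ ∈ irrF Γ, (v χ' ψ : ℤ) * A.ord ψ : ℤ) : ℝ) * d) ≤ 0 :=
        mul_nonpos_of_nonneg_of_nonpos (by linarith) (mul_nonpos_of_nonpos_of_nonneg h7 h10.le)
      linarith

end Pool.Agent.Y786.FR
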