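import Pool.Agent.Y786.FR.Lower
import Pool.Agent.W446.AS.Rep

set_option autoImplicit false

/-!
# Multiplicities of the restriction of a Heilbronn function to a free subgroup
-/

namespace Pool.Agent.Y786.FR

open Pool.Agent.H302R2 Pool.Agent.H541R3.ART Pool.Agent.W446.AS Equiv

section chars

variable {G : Type} [Group G] [Finite G]

omit [Finite G] in
lemma irr_deg {χ : G → ℂ} (hχ : χ ∈ Irr G) : ∃ d : ℕ, 0 < d ∧ χ 1 = d := by
  obtain ⟨n, ρ, hρ, rfl⟩ := exists_rep hχ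
  have := hρ.1
  refine ⟨Module.finrank ℂ (Fin n → ℂ), Module.finrank_pos, ?_⟩
  exact ρ.char_one

omit [Finite G] in
lemma one_irr : (fun _ : G => (1 : ℂ)) ∈ Irr G := by
  have h1 : Irred (linRep (1 : G →* ℂˣ)) := by
    refine ⟨inferInstance, fun W _ => ?_⟩
    exact (eq_bot_or_eq_top (W : Ideal ℂ))
  have h2 := irr_of_irred h1
  have h3 : (linRep (1 : G →* ℂˣ)).character = fun _ => (1 : ℂ) := by
    funext g
    rw [linRep_char]
    simp
  rwa [h3] at h2

lemma sum_irr_inv [Fintype G] {χ : G → ℂ} (hχ : χ ∈ Irr G) (hne : χ ≠ fun _ => 1) :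
    ∑ g : G, χ g⁻¹ = 0 := by
  have h := pair_ne (one_irr (G := G)) hχ hne.symm
  simpa using h

lemma irr_norm_le {χ : G → ℂ} (hχ : χ ∈ Irr G) (g : G) : ‖χ g‖ ≤ (χ 1).re := by
  have h : IsHeilbronn χ := ⟨fun g h => Irr.conj hχ g h, fun H ψ => exists_mult hχ H ψ⟩
  exact h.norm_le g

/-- multiplicities of irreducible characters along a homomorphism -/
lemma exists_mult_hom {Γ : Type} [Group Γ] {ψ : Γ → ℂ} (hψ : ψ ∈ Irr Γ) (ι : G →* Γ) {χ : G → ℂ}
    (hχ : χ ∈ Irr G) :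
    ∃ m : ℕ, ∑ᶠ g : G, ψ (ι g) * χ g⁻¹ = (m : ℂ) * (Nat.card G : ℂ) := by
  classical
  have : Fintype G := Fintype.ofFinite G
  obtain ⟨n, ρ, hρ, rfl⟩ := hψ
  obtain ⟨n', σ, hσ, rfl⟩ := hχ
  have hG : (Nat.card G : ℂ) ≠ 0 := by exact_mod_cast Nat.card_pos.ne'
  have : Invertible (Nat.card G : ℂ) := invertibleOfNonzero hG
  let τ : Representation ℂ G (Fin n → ℂ) := ρ.comp ι
  have h := Representation.card_inv_mul_sum_char_mul_char_eq_finrank σ τ
  refine ⟨Module.finrank ℂ (Representation.IntertwiningMap σ τ), ?_⟩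
  rw [← h, finsum_eq_sum_of_fintype]
  have h2 : ∀ x : G, τ.character x * σ.character x⁻¹ = ρ.character (ι x) * σ.character x⁻¹ :=
    fun x => rfl
  rw [Finset.sum_congr rfl (fun x _ => h2 x)]
  field_simp

end chars

/-- the estimates for the multiplicities -/
lemma mult_est {G : Type} [Group G] [Fintype G] (F : ℕ → ℝ) (δ η : ℝ) (N : ℕ) (hN : Fintype.card G ≤ N)
    (hδ : 0 ≤ δ) (hη0 : 0 ≤ η) (hη : η ≤ 1 / 2) (h1 : (1 - η) * δ ≤ F 1)
    (hF : ∀ n : ℕ, 2 ≤ n → n ≤ N → (1 - η) * δ ≤ F 1 - F n ∧ (1 - η) * (F 1 - F n) ≤ δ)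
    {χ : G → ℂ} (hχ : χ ∈ Irr G) (a : ℤ)
    (ha : ∑ g : G, (F (orderOf g) : ℂ) * χ g⁻¹ = (a : ℂ) * Fintype.card G) :
    (1 - 3 * N * η) * (δ * (χ 1).re) ≤ a * Fintype.card G ∧
      (χ ≠ (fun _ => 1) → a * Fintype.card G ≤ (1 + 3 * N * η) * (δ * (χ 1).re)) := by
  classical
  have hord : ∀ g : G, g ≠ 1 → 2 ≤ orderOf g ∧ orderOf g ≤ N := by
    intro g hg
    have h2 := orderOf_pos g
    have h3 : orderOf g ≠ 1 := fun h => hg (orderOf_eq_one_iff.mp h)
    exact ⟨by omega, (orderOf_le_card_univ).trans hN⟩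
  have hκ : ∀ g : G, g ≠ 1 → |F (orderOf g) - F 1 + δ| ≤ 2 * η * δ := by
    intro g hg
    obtain ⟨h2, h3⟩ := hF _ (hord g hg).1 (hord g hg).2
    rw [abs_le]
    constructor
    · -- F 1 - F n ≤ (1 + 2η) δ
      have h4 : 0 ≤ F 1 - F (orderOf g) := le_trans (mul_nonneg (by linarith) hδ) h2
      have h5 : F 1 - F (orderOf g) ≤ (1 + 2 * η) * δ := by
        have h6 : (1 + 2 * η) * ((1 - η) * (F 1 - F (orderOf g))) ≤ (1 + 2 * η) * δ :=
          mul_le_mul_of_nonneg_left h3 (by linarith)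
        have h7 : F 1 - F (orderOf g) ≤ (1 + 2 * η) * ((1 - η) * (F 1 - F (orderOf g))) := by
          have h8 : 1 ≤ (1 + 2 * η) * (1 - η) := by nlinarith
          calc F 1 - F (orderOf g) = 1 * (F 1 - F (orderOf g)) := by ring
            _ ≤ ((1 + 2 * η) * (1 - η)) * (F 1 - F (orderOf g)) :=
              mul_le_mul_of_nonneg_right h8 h4
            _ = _ := by ring
        linarith
      linarith
    · have : 0 ≤ η * δ := mul_nonneg hη0 hδ
      linarith
  have hcard : (1 : ℝ) ≤ Fintype.card G := by exact_mod_cast Fintype.card_pos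
  have hNr : (Fintype.card G : ℝ) ≤ N := by exact_mod_cast hN
  have hηδ : 0 ≤ η * δ := mul_nonneg hη0 hδ
  obtain ⟨d, hd, hd1⟩ := irr_deg hχ
  have hdr : (χ 1).re = d := by rw [hd1, Complex.natCast_re]
  have hd0 : (1 : ℝ) ≤ d := by exact_mod_cast hd
  by_cases hne : χ = fun _ => 1
  · refine ⟨?_, fun h => absurd hne h⟩
    subst hne
    simp only [mul_one, Complex.one_re]
    have h2 : ∑ g : G, F (orderOf g) = (a : ℝ) * Fintype.card G := by
      have h3 : ((∑ g : G, F (orderOf g) : ℝ) : ℂ) = (((a : ℝ) * Fintype.card G : ℝ) : ℂ) := by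
        push_cast
        rw [← ha]
        exact Finset.sum_congr rfl fun g _ => by rw [mul_one]
      exact_mod_cast h3
    rw [← h2]
    have h3 : ∀ g : G, (if g = 1 then δ else 0) - 3 * η * δ ≤ F (orderOf g) := by
      intro g
      by_cases hg : g = 1
      · subst hg
        rw [if_pos rfl, orderOf_one]
        linarith
      · rw [if_neg hg]
        have h4 := (abs_le.mp (hκ g hg)).1
        linarith
    refine le_trans ?_ (Finset.sum_le_sum fun g _ => h3 g)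
    rw [Finset.sum_sub_distrib, Finset.sum_const, Finset.card_univ, nsmul_eq_mul,
      Finset.sum_ite_eq' Finset.univ (1 : G) (fun _ => δ), if_pos (Finset.mem_univ _)]
    have h5 : (Fintype.card G : ℝ) * (3 * η * δ) ≤ N * (3 * η * δ) :=
      mul_le_mul_of_nonneg_right hNr (by linarith)
    linarith
  · have h2 : ∑ g : G, ((F (orderOf g) - F 1 + δ : ℝ) : ℂ) * χ g⁻¹ = (a : ℂ) * Fintype.card G := by
      rw [← ha]
      have h3 : ∀ g : G, ((F (orderOf g) - F 1 + δ : ℝ) : ℂ) * χ g⁻¹ =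
          (F (orderOf g) : ℂ) * χ g⁻¹ + ((δ - F 1 : ℝ) : ℂ) * χ g⁻¹ := by
        intro g; push_cast; ring
      rw [Finset.sum_congr rfl (fun g _ => h3 g), Finset.sum_add_distrib, ← Finset.mul_sum,
        sum_irr_inv hχ hne, mul_zero, add_zero]
    have h3 : (a : ℂ) * Fintype.card G - ((δ * d : ℝ) : ℂ) =
        ∑ g ∈ Finset.univ.erase (1 : G), ((F (orderOf g) - F 1 + δ : ℝ) : ℂ) * χ g⁻¹ := by
      rw [← h2, ← Finset.add_sum_erase _ _ (Finset.mem_univ (1 : G)), orderOf_one, inv_one, hd1]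
      push_cast
      ring
    have h4 : |(a : ℝ) * Fintype.card G - δ * d| ≤ 3 * N * η * (δ * d) := by
      have h5 : ‖(a : ℂ) * Fintype.card G - ((δ * d : ℝ) : ℂ)‖ = |(a : ℝ) * Fintype.card G - δ * d| := by
        have : (a : ℂ) * Fintype.card G - ((δ * d : ℝ) : ℂ) =
            (((a : ℝ) * Fintype.card G - δ * d : ℝ) : ℂ) := by push_cast; ring
        rw [this, Complex.norm_real, Real.norm_eq_abs]
      rw [← h5, h3]
      refine (norm_sum_le _ _).trans ?_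
      have h6 : ∀ g ∈ Finset.univ.erase (1 : G),
          ‖((F (orderOf g) - F 1 + δ : ℝ) : ℂ) * χ g⁻¹‖ ≤ 2 * η * δ * d := by
        intro g hg
        rw [norm_mul, Complex.norm_real, Real.norm_eq_abs]
        exact mul_le_mul (hκ g (Finset.ne_of_mem_erase hg)) (by rw [← hdr]; exact irr_norm_le hχ _)
          (norm_nonneg _) (by linarith)
      refine (Finset.sum_le_sum h6).trans ?_
      rw [Finset.sum_const, nsmul_eq_mul]
      have h7 : ((Finset.univ.erase (1 : G)).card : ℝ) ≤ N := by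
        refine le_trans ?_ hNr
        exact_mod_cast Finset.card_le_univ _
      have h8 : 0 ≤ η * δ * d := mul_nonneg hηδ (by linarith)
      have h9 : (0 : ℝ) ≤ N := Nat.cast_nonneg N
      calc ((Finset.univ.erase (1 : G)).card : ℝ) * (2 * η * δ * d) ≤ N * (2 * η * δ * d) :=
            mul_le_mul_of_nonneg_right h7 (by linarith)
        _ ≤ 3 * N * η * (δ * d) := by nlinarith
    rw [hdr]
    have h5 := abs_le.mp h4
    exact ⟨by linarith [h5.1], fun _ => by linarith [h5.2]⟩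

/-- **Restrictions of Heilbronn functions to free subgroups.** -/
theorem free_mult (N : ℕ) (ε : ℝ) (hε : 0 < ε) : ∃ m₀ : ℕ, 0 < m₀ ∧ ∀ m : ℕ, 0 < m → m₀ ∣ m →
    ∀ θ : Perm (Fin m) → ℂ, IsHeilbronn θ → ∀ (G : Type) [Group G] [Fintype G],
      Fintype.card G ≤ N → ∀ ι : G →* Perm (Fin m), FreeHom ι → ∀ a : (G → ℂ) → ℤ,
      (∀ χ ∈ Irr G, ∑ g : G, θ (ι g) * χ g⁻¹ = (a χ : ℂ) * Fintype.card G) →
      (∀ χ ∈ Irr G, 0 ≤ a χ) ∧ ∀ χ ∈ Irr G, χ ≠ (fun _ => 1) → ∀ χ' ∈ Irr G,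
        a χ * (χ' 1).re ≤ (1 + ε) * (a χ' * (χ 1).re) := by
  classical
  set ε' : ℝ := min ε 1 with hε'
  have he0 : 0 < ε' := lt_min hε one_pos
  have he1 : ε' ≤ 1 := min_le_right _ _
  have hee : ε' ≤ ε := min_le_left _ _
  set η : ℝ := ε' / (9 * (N + 1)) with hη
  have hN0 : (0 : ℝ) ≤ N := Nat.cast_nonneg N
  have hη0 : 0 < η := by positivity
  have hμ : 3 * N * η ≤ ε' / 3 := by
    rw [hη]
    rw [show 3 * (N : ℝ) * (ε' / (9 * (N + 1))) = (ε' / 3) * (N / (N + 1)) by field_simp; ring]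
    have h1 : (N : ℝ) / (N + 1) ≤ 1 := by
      rw [div_le_one (by positivity)]; linarith
    have h2 : 0 ≤ ε' / 3 := by positivity
    nlinarith
  have hη1 : η ≤ 1 / 2 := by
    rw [hη, div_le_iff₀ (by positivity)]
    nlinarith
  obtain ⟨m₀, hm₀, hm⟩ := compare N η hη0
  refine ⟨m₀, hm₀, fun m hmpos hdvd θ hθ G _ _ hG ι hι a ha => ?_⟩
  obtain ⟨δ, hδ0, hδ1, hδn⟩ := hm m hmpos hdvd θ hθ
  have hval : ∀ g : G, θ (ι g) = (fv θ (orderOf g) : ℂ) := by
    intro g
    rw [fv_eq hθ (hι.freeP g), hι.orderOf hmpos g]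
  have hest : ∀ χ ∈ Irr G, (1 - 3 * N * η) * (δ * (χ 1).re) ≤ a χ * Fintype.card G ∧
      (χ ≠ (fun _ => 1) → a χ * Fintype.card G ≤ (1 + 3 * N * η) * (δ * (χ 1).re)) := by
    intro χ hχ
    refine mult_est (fv θ) δ η N hG hδ0 hη0.le hη1 hδ1 hδn hχ (a χ) ?_
    rw [← ha χ hχ]
    exact Finset.sum_congr rfl fun g _ => by rw [hval]
  have hcard : (0 : ℝ) < Fintype.card G := by exact_mod_cast Fintype.card_pos
  have hre : ∀ χ ∈ Irr G, 0 < (χ 1).re := by
    intro χ hχ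
    obtain ⟨d, hd, hd1⟩ := irr_deg hχ
    rw [hd1, Complex.natCast_re]
    exact_mod_cast hd
  refine ⟨?_, ?_⟩
  · intro χ hχ
    have h1 := (hest χ hχ).1
    have h2 : 0 ≤ (1 - 3 * N * η) * (δ * (χ 1).re) :=
      mul_nonneg (by linarith) (mul_nonneg hδ0 (hre χ hχ).le)
    have h3 : (0 : ℝ) ≤ a χ := by
      by_contra h
      push Not at h
      have := mul_neg_of_neg_of_pos h hcard
      linarith
    exact_mod_cast h3
  · intro χ hχ hne χ' hχ'
    have h1 := (hest χ hχ).2 hne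
    have h2 := (hest χ' hχ').1
    have hD := hre χ hχ
    have hD' := hre χ' hχ'
    have h3 : a χ * Fintype.card G * (χ' 1).re ≤ (1 + 3 * N * η) * (δ * (χ 1).re) * (χ' 1).re :=
      mul_le_mul_of_nonneg_right h1 hD'.le
    have h4 : (1 + ε) * ((1 - 3 * N * η) * (δ * (χ' 1).re) * (χ 1).re) ≤
        (1 + ε) * (a χ' * Fintype.card G * (χ 1).re) :=
      mul_le_mul_of_nonneg_left (mul_le_mul_of_nonneg_right h2 hD.le) (by linarith)
    have h5 : 1 + 3 * N * η ≤ (1 + ε) * (1 - 3 * N * η) := by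
      have h6 : 0 ≤ 3 * N * η := by positivity
      have h7 : (1 + ε') * (1 - 3 * N * η) ≤ (1 + ε) * (1 - 3 * N * η) :=
        mul_le_mul_of_nonneg_right (by linarith) (by linarith)
      nlinarith
    have h6 : 0 ≤ δ * (χ 1).re * (χ' 1).re := by positivity
    have h7 : (1 + 3 * N * η) * (δ * (χ 1).re * (χ' 1).re) ≤
        (1 + ε) * (1 - 3 * N * η) * (δ * (χ 1).re * (χ' 1).re) := mul_le_mul_of_nonneg_right h5 h6
    have h8 : (a χ * (χ' 1).re) * Fintype.card G ≤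
        ((1 + ε) * (a χ' * (χ 1).re)) * Fintype.card G := by nlinarith
    exact le_of_mul_le_mul_right h8 hcard

end Pool.Agent.Y786.FR
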