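import Pool.Agent.Y786.FR.Pair
import Pool.Agent.TH216.MF.FarkasQ

set_option autoImplicit false

/-!
# Duality: Heilbronn functions and the cone of the monomial characters
-/

namespace Pool.Agent.Y786.FR

open Pool.Agent.H302R2 Pool.Agent.H541R3.ART Pool.Agent.W446.AS

/-- common denominators -/
lemma clearZ {B : Type} [Fintype B] (x : B → ℚ) :
    ∃ (d : ℕ) (y : B → ℤ), 0 < d ∧ ∀ b, (y b : ℚ) = d * x b := by
  classical
  refine ⟨∏ b, (x b).den, fun b => ((∏ c ∈ Finset.univ.erase b, (x c).den : ℕ) : ℤ) * (x b).num,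
    Finset.prod_pos fun b _ => (x b).den_pos, fun b => ?_⟩
  have h3 : ((x b).num : ℚ) = (x b).den * x b := by
    rw [mul_comm]
    exact (Rat.mul_den_eq_num (x b)).symm
  rw [Int.cast_mul, h3, ← Finset.mul_prod_erase Finset.univ (fun c => (x c).den)
    (Finset.mem_univ b)]
  push_cast
  ring

lemma clearN {B : Type} [Fintype B] (x : B → ℚ) (hx : ∀ b, 0 ≤ x b) :
    ∃ (d : ℕ) (y : B → ℕ), 0 < d ∧ ∀ b, (y b : ℚ) = d * x b := by
  obtain ⟨d, y, hd, hy⟩ := clearZ x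
  refine ⟨d, fun b => (y b).toNat, hd, fun b => ?_⟩
  have h1 : 0 ≤ y b := by
    have : (0 : ℚ) ≤ y b := by
      rw [hy]
      exact mul_nonneg (by exact_mod_cast hd.le) (hx b)
    exact_mod_cast this
  have h2 : (((y b).toNat : ℤ) : ℚ) = y b := by rw [Int.toNat_of_nonneg h1]
  rw [← hy b, ← h2]
  push_cast
  rfl

instance finite_lin (H : Type) [Group H] [Finite H] : Finite (H →* ℂˣ) := by
  have h1 : LinearIndependent ℂ (fun f : H →* ℂ => (f : H → ℂ)) := linearIndependent_monoidHom H ℂ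
  have h2 : Finite (H →* ℂ) := h1.finite
  refine Finite.of_injective (fun f : H →* ℂˣ => (Units.coeHom ℂ).comp f) ?_
  intro f g hfg
  ext x
  exact DFunLike.congr_fun hfg x

/-- **Duality.** A vector of multiplicities which is nonnegative on all Heilbronn functions is a
positive rational combination of the vectors of the monomial characters. -/
theorem cone_of_heilbronn {Γ : Type} [Group Γ] [Finite Γ] (v : (Γ → ℂ) → ℕ)
    (h : ∀ n : (Γ → ℂ) → ℤ, IsHeilbronn (theta n : Γ → ℂ) → 0 ≤ ∑ ψ ∈ irrF Γ, (v ψ : ℤ) * n ψ) :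
    ∃ (k l : ℕ) (H : Fin l → Subgroup Γ) (lam : ∀ i, H i →* ℂˣ) (w : Fin l → (Γ → ℂ) → ℕ), 0 < k ∧
      (∀ i, ∀ ψ ∈ Irr Γ, ∑ᶠ x : H i, ψ x * (((lam i x)⁻¹ : ℂˣ) : ℂ) =
        (w i ψ : ℂ) * (Nat.card (H i) : ℂ)) ∧
      ∀ ψ ∈ Irr Γ, k * v ψ = ∑ i, w i ψ := by
  classical
  let I := Σ H : Subgroup Γ, (H →* ℂˣ)
  have : Finite I := inferInstance
  have : Fintype I := Fintype.ofFinite I
  let q := Fintype.card I
  let e : I ≃ Fin q := Fintype.equivFin I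
  -- multiplicities
  choose! w hw using fun (i : I) (ψ : Γ → ℂ) (hψ : ψ ∈ Irr Γ) => exists_mult hψ i.1 i.2
  let U := {ψ // ψ ∈ irrF Γ} → ℚ
  let ℓ : Fin q → (U →ₗ[ℚ] ℚ) := fun j =>
    -(∑ ψ : {ψ // ψ ∈ irrF Γ}, (w (e.symm j) ψ : ℚ) • LinearMap.proj ψ)
  let f : U →ₗ[ℚ] ℚ := -(∑ ψ : {ψ // ψ ∈ irrF Γ}, (v ψ : ℚ) • LinearMap.proj ψ)
  have hℓ : ∀ j x, ℓ j x = -∑ ψ : {ψ // ψ ∈ irrF Γ}, (w (e.symm j) ψ : ℚ) * x ψ := by
    intro j x
    simp only [ℓ, LinearMap.neg_apply, LinearMap.sum_apply, LinearMap.smul_apply, smul_eq_mul]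
    rfl
  have hf : ∀ x, f x = -∑ ψ : {ψ // ψ ∈ irrF Γ}, (v ψ : ℚ) * x ψ := by
    intro x
    simp only [f, LinearMap.neg_apply, LinearMap.sum_apply, LinearMap.smul_apply, smul_eq_mul]
    rfl
  obtain ⟨c, hc0, hc⟩ := Pool.Agent.TH216.MF.farkas_lin q ℓ f (by
    intro x hx
    obtain ⟨d, y, hd, hy⟩ := clearZ x
    let n : (Γ → ℂ) → ℤ := fun ψ => if hψ : ψ ∈ irrF Γ then y ⟨ψ, hψ⟩ else 0
    have hn : ∀ ψ : {ψ // ψ ∈ irrF Γ}, n ψ = y ψ := fun ψ => dif_pos ψ.2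
    have hd' : (0 : ℚ) < d := by exact_mod_cast hd
    have hH : IsHeilbronn (theta n : Γ → ℂ) := by
      refine theta_isHeilbronn n fun H ψ m hm => ?_
      have h1 := hx (e ⟨H, ψ⟩)
      rw [hℓ, Equiv.symm_apply_apply] at h1
      have h2 : ∀ χ ∈ irrF Γ, m χ = w ⟨H, ψ⟩ χ := by
        intro χ hχ
        have h3 := hm χ (mem_irrF.mp hχ)
        have h4 := hw ⟨H, ψ⟩ χ (mem_irrF.mp hχ)
        rw [h3] at h4
        have hH : (Nat.card H : ℂ) ≠ 0 := by exact_mod_cast Nat.card_pos.ne'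
        exact_mod_cast mul_right_cancel₀ hH h4
      have h5 : ∑ χ ∈ irrF Γ, (m χ : ℤ) * n χ =
          ∑ χ : {ψ // ψ ∈ irrF Γ}, (w ⟨H, ψ⟩ χ : ℤ) * y χ := by
        rw [← Finset.sum_coe_sort]
        exact Finset.sum_congr rfl fun χ _ => by rw [h2 χ χ.2, hn]
      rw [h5]
      have h6 : (0 : ℚ) ≤ ((∑ χ : {ψ // ψ ∈ irrF Γ}, (w ⟨H, ψ⟩ χ : ℤ) * y χ : ℤ) : ℚ) := by
        push_cast
        have h7 : ∑ χ : {ψ // ψ ∈ irrF Γ}, (w ⟨H, ψ⟩ χ : ℚ) * (y χ : ℚ) =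
            d * ∑ χ : {ψ // ψ ∈ irrF Γ}, (w ⟨H, ψ⟩ χ : ℚ) * x χ := by
          rw [Finset.mul_sum]
          exact Finset.sum_congr rfl fun χ _ => by rw [hy]; ring
        rw [h7]
        exact mul_nonneg hd'.le (by linarith)
      exact_mod_cast h6
    have h1 := h n hH
    rw [hf]
    have h2 : ∑ ψ ∈ irrF Γ, (v ψ : ℤ) * n ψ = ∑ χ : {ψ // ψ ∈ irrF Γ}, (v χ : ℤ) * y χ := by
      rw [← Finset.sum_coe_sort]
      exact Finset.sum_congr rfl fun χ _ => by rw [hn]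
    rw [h2] at h1
    have h3 : (0 : ℚ) ≤ ((∑ χ : {ψ // ψ ∈ irrF Γ}, (v χ : ℤ) * y χ : ℤ) : ℚ) := by exact_mod_cast h1
    push_cast at h3
    have h7 : ∑ χ : {ψ // ψ ∈ irrF Γ}, (v χ : ℚ) * (y χ : ℚ) =
        d * ∑ χ : {ψ // ψ ∈ irrF Γ}, (v χ : ℚ) * x χ := by
      rw [Finset.mul_sum]
      exact Finset.sum_congr rfl fun χ _ => by rw [hy]; ring
    rw [h7] at h3
    have := nonneg_of_mul_nonneg_right h3 hd'
    linarith)
  obtain ⟨k, C, hk, hC⟩ := clearN c hc0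
  -- the family
  let J := Σ j : Fin q, Fin (C j)
  let g : J ≃ Fin (Fintype.card J) := Fintype.equivFin J
  have key : ∀ ψ ∈ irrF Γ, (v ψ : ℚ) = ∑ j, c j * (w (e.symm j) ψ : ℚ) := by
    intro ψ hψ
    have h1 := hc (Pi.single ⟨ψ, hψ⟩ 1)
    rw [hf] at h1
    simp only [hℓ] at h1
    have h2 : ∀ u : {ψ // ψ ∈ irrF Γ} → ℚ, ∑ χ : {ψ // ψ ∈ irrF Γ}, u χ *
        (Pi.single (⟨ψ, hψ⟩ : {ψ // ψ ∈ irrF Γ}) (1 : ℚ) : {ψ // ψ ∈ irrF Γ} → ℚ) χ = u ⟨ψ, hψ⟩ := by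
      intro u
      rw [Finset.sum_eq_single (⟨ψ, hψ⟩ : {ψ // ψ ∈ irrF Γ})]
      · simp
      · intro b _ hb
        rw [Pi.single_eq_of_ne hb, mul_zero]
      · intro hh
        exact absurd (Finset.mem_univ _) hh
    rw [h2 (fun χ => (v χ : ℚ))] at h1
    have h3 : ∀ j, c j * -∑ χ : {ψ // ψ ∈ irrF Γ}, (w (e.symm j) χ : ℚ) *
        (Pi.single (⟨ψ, hψ⟩ : {ψ // ψ ∈ irrF Γ}) (1 : ℚ) : {ψ // ψ ∈ irrF Γ} → ℚ) χ =
        -(c j * (w (e.symm j) ψ : ℚ)) := by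
      intro j
      rw [h2 (fun χ => (w (e.symm j) χ : ℚ))]
      ring
    rw [Finset.sum_congr rfl (fun j _ => h3 j), Finset.sum_neg_distrib] at h1
    linarith
  refine ⟨k, Fintype.card J, fun i => (e.symm (g.symm i).1).1, fun i => (e.symm (g.symm i).1).2,
    fun i => w (e.symm (g.symm i).1), hk, fun i ψ hψ => hw _ ψ hψ, fun ψ hψ => ?_⟩
  have h1 := key ψ (mem_irrF.mpr hψ)
  rw [Equiv.sum_comp g.symm (fun x : J => w (e.symm x.1) ψ), Fintype.sum_sigma]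
  simp only [Finset.sum_const, Finset.card_univ, Fintype.card_fin, smul_eq_mul]
  have h2 : ((k * v ψ : ℕ) : ℚ) = ((∑ j, C j * w (e.symm j) ψ : ℕ) : ℚ) := by
    push_cast
    rw [h1, Finset.mul_sum]
    exact Finset.sum_congr rfl fun j _ => by rw [hC]; ring
  exact_mod_cast h2

end Pool.Agent.Y786.FR
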