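import Mathlib

set_option autoImplicit false

/-!
# Free permutations and free homomorphisms into the symmetric group
-/

namespace Pool.Agent.Y786.FR

open Equiv Equiv.Perm

/-- A power with a fixed point is trivial. -/
def FreeP {m : ℕ} (σ : Perm (Fin m)) : Prop := ∀ (i : ℕ) (x : Fin m), (σ ^ i) x = x → σ ^ i = 1

/-- The action of `H` on the `m` points through `e` is free. -/
def FreeHom {m : ℕ} {H : Type*} [Group H] (e : H →* Perm (Fin m)) : Prop :=
  ∀ h : H, h ≠ 1 → ∀ x, e h x ≠ x

lemma FreeP.cycleType {m : ℕ} {σ : Perm (Fin m)} (h : FreeP σ) (n : ℕ) (hn : n ∈ σ.cycleType) :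
    n = orderOf σ := by
  apply Nat.dvd_antisymm (dvd_of_mem_cycleType hn)
  rw [cycleType_def, Multiset.mem_map] at hn
  obtain ⟨c, hc, rfl⟩ := hn
  have hc' : c ∈ σ.cycleFactorsFinset := hc
  have hcyc : c.IsCycle := (mem_cycleFactorsFinset_iff.mp hc').1
  obtain ⟨x, hx⟩ : c.support.Nonempty := by
    rw [← Finset.card_pos]
    have := hcyc.two_le_card_support
    omega
  have hcx : c = σ.cycleOf x := cycle_is_cycleOf hx hc'
  apply orderOf_dvd_of_pow_eq_one
  apply h _ x
  rw [Function.comp_apply, ← hcyc.orderOf]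
  have h1 := cycleOf_pow_apply_self σ x (orderOf c)
  rw [← hcx, pow_orderOf_eq_one] at h1
  exact h1.symm

lemma FreeP.isConj {m : ℕ} {σ τ : Perm (Fin m)} (hσ : FreeP σ) (hτ : FreeP τ)
    (h : orderOf σ = orderOf τ) : IsConj σ τ := by
  rw [isConj_iff_cycleType_eq]
  have key : ∀ ρ : Perm (Fin m), FreeP ρ →
      ρ.cycleType = Multiset.replicate (if orderOf ρ = 1 then 0 else m / orderOf ρ) (orderOf ρ) := by
    intro ρ hρ
    by_cases h1 : orderOf ρ = 1
    · rw [if_pos h1, Multiset.replicate_zero, cycleType_eq_zero]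
      exact orderOf_eq_one_iff.mp h1
    · rw [if_neg h1]
      have h2 := Multiset.eq_replicate_card.mpr (fun b hb => hρ.cycleType b hb)
      have h3 := ρ.sum_cycleType
      have h4 : ρ.support = Finset.univ := by
        rw [Finset.eq_univ_iff_forall]
        intro x
        rw [mem_support]
        intro hx
        apply h1
        rw [orderOf_eq_one_iff]
        have := hρ 1 x (by simpa using hx)
        simpa using this
      rw [h4, Finset.card_univ, Fintype.card_fin, h2, Multiset.sum_replicate, smul_eq_mul] at h3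
      have h5 : Multiset.card ρ.cycleType = m / orderOf ρ :=
        (Nat.div_eq_of_eq_mul_left (orderOf_pos ρ) h3.symm).symm
      rw [h2, h5]
  rw [key σ hσ, key τ hτ, h]

section

variable {m : ℕ} {H : Type*} [Group H] {e : H →* Perm (Fin m)}

lemma FreeHom.inj (he : FreeHom e) (hm : 0 < m) : Function.Injective e := by
  rw [injective_iff_map_eq_one]
  intro h hh
  by_contra hne
  exact he h hne ⟨0, hm⟩ (by rw [hh]; rfl)

lemma FreeHom.freeP (he : FreeHom e) (h : H) : FreeP (e h) := by
  intro i x hx
  rw [← map_pow] at hx ⊢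
  by_contra hne
  exact he (h ^ i) (fun h1 => hne (by rw [h1, map_one])) x hx

lemma FreeHom.orderOf (he : FreeHom e) (hm : 0 < m) (h : H) : orderOf (e h) = orderOf h :=
  orderOf_injective e (he.inj hm) h

end

/-- the action on `H × Fin k` by left multiplication -/
def leftHom (H : Type*) [Group H] (k : ℕ) : H →* Perm (H × Fin k) where
  toFun h := ⟨fun p => (h * p.1, p.2), fun p => (h⁻¹ * p.1, p.2), fun p => by simp, fun p => by simp⟩
  map_one' := by ext p <;> simp
  map_mul' a b := by ext p <;> simp [mul_assoc]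

lemma exists_freeHom (H : Type*) [Group H] [Finite H] {m : ℕ} (h : Nat.card H ∣ m) :
    ∃ e : H →* Perm (Fin m), FreeHom e := by
  classical
  have : Fintype H := Fintype.ofFinite H
  obtain ⟨k, rfl⟩ := h
  have hc : Fintype.card (H × Fin k) = Nat.card H * k := by
    rw [Fintype.card_prod, Fintype.card_fin, Nat.card_eq_fintype_card]
  let φ : H × Fin k ≃ Fin (Nat.card H * k) := Fintype.equivFinOfCardEq hc
  refine ⟨φ.permCongrHom.toMonoidHom.comp (leftHom H k), ?_⟩
  intro h hh x hx
  have h1 : φ (leftHom H k h (φ.symm x)) = x := hx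
  have h2 : leftHom H k h (φ.symm x) = φ.symm x := by
    rw [Equiv.eq_symm_apply]; exact h1
  have h3 : h * (φ.symm x).1 = (φ.symm x).1 := congrArg Prod.fst h2
  exact hh (mul_eq_right.mp h3)

end Pool.Agent.Y786.FR
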