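import Pool.Agent.Y786.FR.Upper
import Pool.Agent.Y786.FR.Free

set_option autoImplicit false

/-!
# The lower bound: affine groups of finite fields; comparison of the values at free permutations
-/

namespace Pool.Agent.Y786.FR

open Pool.Agent.H302R2

/-- **Lower bound.** -/
theorem lower {F : Type} [Field F] [Fintype F] {p n : ℕ} (hp : p.Prime) [CharP F p]
    (hn : 1 < n) (hd : n ∣ Fintype.card F - 1)
    {θ : SD Fˣ F → ℂ} (hθ : IsHeilbronn θ) (f : ℕ → ℝ) (hf : ∀ x, θ x = f (orderOf x)) :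
    |f n| * Fintype.card F ≤ f 1 + (Fintype.card F - 1) * f p := by
  classical
  obtain ⟨g, hg⟩ := IsCyclic.exists_ofOrder_eq_natCard (α := Fˣ)
  rw [Nat.card_eq_fintype_card, Fintype.card_units] at hg
  have hq : 1 < Fintype.card F := Fintype.one_lt_card
  obtain ⟨c, hc⟩ : ∃ c : Fˣ, orderOf c = n :=
    ⟨g ^ (orderOf g / n), orderOf_pow_orderOf_div (by rw [hg]; omega) (by rw [hg]; exact hd)⟩
  have hc1 : ∀ v : F, c • v = v → v = 0 := by
    intro v hv
    rw [Units.smul_def, smul_eq_mul] at hv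
    by_contra hv0
    have h1 : (c : F) = 1 := mul_right_cancel₀ hv0 (by rw [hv, one_mul])
    have h2 : c = 1 := Units.ext h1
    rw [h2, orderOf_one] at hc
    omega
  have hk := SD.key hθ f hf hc1
  rw [hc] at hk
  refine hk.trans (le_of_eq ?_)
  have h1 : ∀ v : F, f (addOrderOf v) = f p + (if v = 0 then f 1 - f p else 0) := by
    intro v
    by_cases hv : v = 0
    · subst hv
      rw [addOrderOf_zero, if_pos rfl]
      ring
    · have : Fact p.Prime := ⟨hp⟩
      rw [addOrderOf_eq_prime (p := p) (by rw [nsmul_eq_mul, CharP.cast_eq_zero, zero_mul]) hv,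
        if_neg hv, add_zero]
  rw [Finset.sum_congr rfl (fun v _ => h1 v), Finset.sum_add_distrib, Finset.sum_const,
    Finset.card_univ, nsmul_eq_mul]
  simp only [Finset.sum_ite_eq', Finset.mem_univ, if_true]
  ring

lemma herm {G : Type*} [Group G] [Finite G] {θ : G → ℂ} (hθ : IsHeilbronn θ) (g : G) :
    θ g⁻¹ = (starRingEnd ℂ) (θ g) := by
  obtain ⟨ι, _, ψ, n, h⟩ :=
    (hθ.comp (Subgroup.zpowers g).subtype).comm_decomp (zpowers_comm g)
  have h1 := h ⟨g, Subgroup.mem_zpowers g⟩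
  have h2 := h (⟨g, Subgroup.mem_zpowers g⟩⁻¹)
  simp only [Subgroup.coe_subtype, InvMemClass.coe_inv] at h1 h2
  rw [h2, h1, map_sum]
  refine Finset.sum_congr rfl fun i _ => ?_
  rw [map_mul, Complex.conj_natCast, map_inv, Units.val_inv_eq_inv_val]
  congr 1
  apply Complex.inv_eq_conj
  have h3 : ((ψ i ⟨g, Subgroup.mem_zpowers g⟩ : ℂˣ) : ℂ) ^ (Nat.card (Subgroup.zpowers g)) = 1 := by
    rw [← Units.val_pow_eq_pow_val, ← map_pow, pow_card_eq_one', map_one, Units.val_one]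
  exact Complex.norm_eq_one_of_pow_eq_one h3 Nat.card_pos.ne'

open Equiv in
lemma FreeP.inv {m : ℕ} {σ : Perm (Fin m)} (h : FreeP σ) : FreeP σ⁻¹ := by
  intro i x hx
  rw [inv_pow] at hx ⊢
  have h1 : (σ ^ i) x = x := by
    rw [Perm.inv_eq_iff_eq] at hx
    exact hx.symm
  rw [h i x h1, inv_one]

section

open Equiv

variable {m : ℕ} {θ : Perm (Fin m) → ℂ}

open Classical in
/-- the value at the free permutations of order `d` -/
noncomputable def fv (θ : Perm (Fin m) → ℂ) (d : ℕ) : ℝ :=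
  if h : ∃ σ : Perm (Fin m), FreeP σ ∧ orderOf σ = d then (θ h.choose).re else (θ 1).re

lemma fv_eq (hθ : IsHeilbronn θ) {σ : Perm (Fin m)} (hσ : FreeP σ) :
    θ σ = fv θ (orderOf σ) := by
  have h : ∃ τ : Perm (Fin m), FreeP τ ∧ orderOf τ = orderOf σ := ⟨σ, hσ, rfl⟩
  have hconj : ∀ a b : Perm (Fin m), IsConj a b → θ a = θ b := by
    intro a b hab
    obtain ⟨c, hc⟩ := isConj_iff.mp hab
    rw [← hc, hθ.conj]
  have h1 : θ h.choose = θ σ := hconj _ _ (h.choose_spec.1.isConj hσ h.choose_spec.2)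
  have h2 : fv θ (orderOf σ) = (θ h.choose).re := dif_pos h
  have h3 : θ σ⁻¹ = θ σ := hconj _ _ (hσ.inv.isConj hσ (orderOf_inv σ))
  rw [h2, h1]
  rw [herm hθ] at h3
  exact (Complex.conj_eq_iff_re.mp h3).symm

lemma freeP_one : FreeP (1 : Perm (Fin m)) := fun i _ _ => one_pow i

lemma fv_one (hθ : IsHeilbronn θ) : θ 1 = fv θ 1 := by
  have := fv_eq hθ (freeP_one (m := m))
  rwa [orderOf_one] at this

lemma fv_le (hθ : IsHeilbronn θ) (d : ℕ) : fv θ d ≤ fv θ 1 := by
  have h0 : fv θ 1 = (θ 1).re := by rw [fv_one hθ, Complex.ofReal_re]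
  rw [h0]
  unfold fv
  split_ifs with h
  · exact (Complex.re_le_norm _).trans (hθ.norm_le _)
  · exact le_rfl

/-- **Comparison of the values at free permutations.** -/
theorem compare (N : ℕ) (η : ℝ) (hη : 0 < η) : ∃ m₀ : ℕ, 0 < m₀ ∧ ∀ m : ℕ, 0 < m → m₀ ∣ m →
    ∀ θ : Perm (Fin m) → ℂ, IsHeilbronn θ → ∃ δ : ℝ, 0 ≤ δ ∧ (1 - η) * δ ≤ fv θ 1 ∧
      ∀ n : ℕ, 2 ≤ n → n ≤ N → (1 - η) * δ ≤ fv θ 1 - fv θ n ∧ (1 - η) * (fv θ 1 - fv θ n) ≤ δ := by
  classical
  set M := max N 2 with hM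
  obtain ⟨p, hpM, hp⟩ := Nat.exists_infinite_primes (M + 1)
  have : Fact p.Prime := ⟨hp⟩
  have hM2 : 2 ≤ M := le_max_right _ _
  have hMr : (2 : ℝ) ≤ M := by exact_mod_cast hM2
  obtain ⟨j, hj⟩ : ∃ j : ℕ, (((M : ℝ) - 1) / M) ^ j < η :=
    exists_pow_lt_of_lt_one hη (by rw [div_lt_one (by linarith)]; linarith)
  obtain ⟨t, ht⟩ : ∃ t : ℕ, ((1 : ℝ) / 2) ^ t < η := exists_pow_lt_of_lt_one hη (by norm_num)
  -- the orders of the auxiliary groups
  let k : ℕ → ℕ := fun n => n.totient * (t + 1)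
  let U : ℕ → ℕ := fun n => Nat.card (SD (Multiplicative (ZMod p)) (SZ p n j))
  let W : ℕ → ℕ := fun n => Nat.card (SD (GaloisField p (k n))ˣ (GaloisField p (k n)))
  have hU : ∀ n, 2 ≤ n → 0 < U n := by
    intro n hn
    have : NeZero n := ⟨by omega⟩
    exact Nat.card_pos
  have hkpos : ∀ n, 2 ≤ n → k n ≠ 0 := by
    intro n hn
    have := Nat.totient_pos.mpr (show 0 < n by omega)
    exact Nat.mul_ne_zero this.ne' (by omega)
  have hFfin : ∀ n, 2 ≤ n → Finite (GaloisField p (k n)) := by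
    intro n hn
    exact Nat.finite_of_card_ne_zero (by
      rw [GaloisField.card p _ (hkpos n hn)]
      exact pow_ne_zero _ hp.ne_zero)
  have hW : ∀ n, 2 ≤ n → 0 < W n := by
    intro n hn
    have := hFfin n hn
    exact Nat.card_pos
  refine ⟨∏ n ∈ Finset.Icc 2 M, U n * W n, ?_, ?_⟩
  · apply Finset.prod_pos
    intro n hn
    have := (Finset.mem_Icc.mp hn).1
    exact Nat.mul_pos (hU n this) (hW n this)
  intro m hm hdiv θ hθ
  have hUW : ∀ n, 2 ≤ n → n ≤ M → U n * W n ∣ m := fun n h1 h2 =>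
    (Finset.dvd_prod_of_mem (fun n => U n * W n) (Finset.mem_Icc.mpr ⟨h1, h2⟩)).trans hdiv
  have hUd : ∀ n, 2 ≤ n → n ≤ M → U n ∣ m := fun n h1 h2 =>
    (Nat.dvd_mul_right _ _).trans (hUW n h1 h2)
  have hWd : ∀ n, 2 ≤ n → n ≤ M → W n ∣ m := fun n h1 h2 =>
    (Nat.dvd_mul_left _ _).trans (hUW n h1 h2)
  -- values on the auxiliary groups
  have hval : ∀ (H : Type) [Group H] [Finite H], Nat.card H ∣ m →
      ∃ e : H →* Perm (Fin m), ∀ x, θ (e x) = fv θ (orderOf x) := by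
    intro H _ _ hH
    obtain ⟨e, he⟩ := exists_freeHom H hH
    exact ⟨e, fun x => by rw [fv_eq hθ (he.freeP x), he.orderOf hm x]⟩
  set δ : ℝ := fv θ 1 - fv θ p with hδ
  have hδ0 : 0 ≤ δ := by have := fv_le hθ p; linarith
  -- the lower bound
  have hlow : ∀ n, 2 ≤ n → n ≤ M → ∃ q : ℝ, 0 < q ∧ 1 ≤ η * q ∧
      |fv θ n| * q ≤ q * fv θ 1 - (q - 1) * δ := by
    intro n h1 h2
    have := hFfin n h1
    have : Fintype (GaloisField p (k n)) := Fintype.ofFinite _
    obtain ⟨e, he⟩ := hval (SD (GaloisField p (k n))ˣ (GaloisField p (k n))) (hWd n h1 h2)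
    have hcard : Fintype.card (GaloisField p (k n)) = p ^ k n := by
      rw [← Nat.card_eq_fintype_card, GaloisField.card p _ (hkpos n h1)]
    have hcop : Nat.Coprime p n := by
      rw [Nat.Prime.coprime_iff_not_dvd hp]
      intro h
      have := Nat.le_of_dvd (by omega) h
      omega
    have hdvd : n ∣ Fintype.card (GaloisField p (k n)) - 1 := by
      rw [hcard]
      have h3 : p ^ k n ≡ 1 [MOD n] := by
        have h4 : p ^ n.totient ≡ 1 [MOD n] := Nat.ModEq.pow_totient hcop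
        have h5 := h4.pow (t + 1)
        rw [one_pow, ← pow_mul] at h5
        exact h5
      exact (Nat.modEq_iff_dvd' (Nat.one_le_pow _ _ hp.pos)).mp h3.symm
    have h3 := lower hp (by omega) hdvd (hθ.comp e) (fv θ) he
    rw [hcard] at h3
    refine ⟨((p ^ k n : ℕ) : ℝ), by exact_mod_cast pow_pos hp.pos _, ?_, ?_⟩
    · have h4 : (2 : ℝ) ^ t ≤ ((p ^ k n : ℕ) : ℝ) := by
        have h5 : 2 ^ t ≤ p ^ k n := by
          calc 2 ^ t ≤ p ^ t := Nat.pow_le_pow_left hp.two_le t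
            _ ≤ p ^ k n := by
              apply Nat.pow_le_pow_right hp.pos
              have := Nat.totient_pos.mpr (show 0 < n by omega)
              change t ≤ n.totient * (t + 1)
              nlinarith
        exact_mod_cast h5
      have h6 : 1 ≤ η * (2 : ℝ) ^ t := by
        have h7 : ((1 : ℝ) / 2) ^ t * 2 ^ t = 1 := by
          rw [← mul_pow]; norm_num
        have h8 : (0 : ℝ) < 2 ^ t := by positivity
        nlinarith
      nlinarith
    · rw [hδ]
      linarith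
  have hhigh : ∀ n, 2 ≤ n → n ≤ M → (1 - η) * (fv θ 1 - fv θ n) ≤ δ := by
    intro n h1 h2
    have : NeZero n := ⟨by omega⟩
    obtain ⟨e, he⟩ := hval (SD (Multiplicative (ZMod p)) (SZ p n j)) (hUd n h1 h2)
    have hcop : Nat.Coprime p n := by
      rw [Nat.Prime.coprime_iff_not_dvd hp]
      intro h
      have := Nat.le_of_dvd (by omega) h
      omega
    have h3 := upper hp.one_lt hcop (hθ.comp e) (fv θ) he (fv_le hθ)
    rw [← hδ] at h3
    have hn0 : (0 : ℝ) < n := by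
      have : 0 < n := by omega
      exact_mod_cast this
    have hnM : (n : ℝ) ≤ M := by exact_mod_cast h2
    have hn1 : (1 : ℝ) ≤ n := by
      have : 1 ≤ n := by omega
      exact_mod_cast this
    have h4 : ((n : ℝ) - 1) ^ j ≤ η * (n : ℝ) ^ j := by
      have h5 : ((n : ℝ) - 1) / n ≤ ((M : ℝ) - 1) / M := by
        rw [div_le_div_iff₀ hn0 (by linarith)]
        nlinarith
      have h6 : (((n : ℝ) - 1) / n) ^ j ≤ η :=
        (pow_le_pow_left₀ (div_nonneg (by linarith) hn0.le) h5 j).trans hj.le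
      rw [div_pow, div_le_iff₀ (by positivity)] at h6
      exact h6
    have h7 : 0 ≤ fv θ 1 - fv θ n := by have := fv_le hθ n; linarith
    have h8 : (0 : ℝ) < (n : ℝ) ^ j := by positivity
    have h9 : (1 - η) * (fv θ 1 - fv θ n) * (n : ℝ) ^ j ≤ δ * (n : ℝ) ^ j := by
      refine le_trans ?_ h3
      have h10 : (fv θ 1 - fv θ n) * ((1 - η) * (n : ℝ) ^ j) ≤
          (fv θ 1 - fv θ n) * ((n : ℝ) ^ j - ((n : ℝ) - 1) ^ j) := by
        apply mul_le_mul_of_nonneg_left _ h7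
        linarith
      linarith
    exact le_of_mul_le_mul_right h9 h8
  refine ⟨δ, hδ0, ?_, ?_⟩
  · obtain ⟨q, hq0, hq1, hq2⟩ := hlow 2 le_rfl hM2
    have h1 : 0 ≤ q * fv θ 1 - (q - 1) * δ := (mul_nonneg (abs_nonneg _) hq0.le).trans hq2
    have h2 : q * ((1 - η) * δ) ≤ q * fv θ 1 := by
      have h3 : δ * 1 ≤ δ * (η * q) := mul_le_mul_of_nonneg_left hq1 hδ0
      linarith
    exact le_of_mul_le_mul_left h2 hq0
  · intro n h1 h2
    have h2' : n ≤ M := h2.trans (le_max_left _ _)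
    refine ⟨?_, hhigh n h1 h2'⟩
    obtain ⟨q, hq0, hq1, hq2⟩ := hlow n h1 h2'
    have h3 : fv θ n * q ≤ q * fv θ 1 - (q - 1) * δ :=
      (mul_le_mul_of_nonneg_right (le_abs_self _) hq0.le).trans hq2
    have h4 : q * ((1 - η) * δ) ≤ q * (fv θ 1 - fv θ n) := by
      have h5 : δ * 1 ≤ δ * (η * q) := mul_le_mul_of_nonneg_left hq1 hδ0
      linarith
    exact le_of_mul_le_mul_left h4 hq0

end

end Pool.Agent.Y786.FR
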