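import Pool.Agent.H302R2.Average

set_option autoImplicit false

/-!
# Averages of Heilbronn functions over the kernel of an affine group
-/

namespace Pool.Agent.Y786.FR

open Pool.Agent.H302R2

/-- the group of the affine maps `v ↦ c • v + w` (an extension of `V` by `C`) -/
@[ext] structure SD (C V : Type) where
  c : C
  v : V

namespace SD

variable {C V : Type}

/-- as a product of sets -/
def eqv : SD C V ≃ C × V where
  toFun x := (x.c, x.v)
  invFun x := ⟨x.1, x.2⟩
  left_inv _ := rfl
  right_inv _ := rfl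

instance [Finite C] [Finite V] : Finite (SD C V) := Finite.of_equiv _ eqv.symm

lemma card : Nat.card (SD C V) = Nat.card C * Nat.card V := by
  rw [Nat.card_congr eqv, Nat.card_prod]

variable [Group C] [AddCommGroup V] [DistribMulAction C V]

instance : Mul (SD C V) := ⟨fun x y => ⟨x.c * y.c, x.v + x.c • y.v⟩⟩
instance : One (SD C V) := ⟨⟨1, 0⟩⟩
instance : Inv (SD C V) := ⟨fun x => ⟨x.c⁻¹, -(x.c⁻¹ • x.v)⟩⟩

lemma mul_def (x y : SD C V) : x * y = ⟨x.c * y.c, x.v + x.c • y.v⟩ := rfl
lemma one_def : (1 : SD C V) = ⟨1, 0⟩ := rfl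
lemma inv_def (x : SD C V) : x⁻¹ = ⟨x.c⁻¹, -(x.c⁻¹ • x.v)⟩ := rfl

instance : Group (SD C V) :=
  Group.ofLeftAxioms
    (fun x y z => by
      simp only [mul_def, mul_assoc, smul_add, mul_smul, add_assoc])
    (fun x => by simp [mul_def, one_def])
    (fun x => by simp [mul_def, one_def, inv_def])

/-- the projection to `C` -/
def pr : SD C V →* C where
  toFun x := x.c
  map_one' := rfl
  map_mul' _ _ := rfl

/-- the inclusion of `C` -/
def inC : C →* SD C V where
  toFun c := ⟨c, 0⟩
  map_one' := rfl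
  map_mul' a b := by simp [mul_def]

/-- the inclusion of `V` -/
def inV : Multiplicative V →* SD C V where
  toFun v := ⟨1, v.toAdd⟩
  map_one' := rfl
  map_mul' a b := by simp [mul_def]

lemma orderOf_inC (c : C) : orderOf (inC c : SD C V) = orderOf c :=
  orderOf_injective inC (fun a b h => congrArg SD.c h) c

lemma orderOf_inV (v : V) : orderOf (⟨1, v⟩ : SD C V) = addOrderOf v := by
  have h := orderOf_injective (inV : Multiplicative V →* SD C V)
    (fun a b h => congrArg SD.v h) (Multiplicative.ofAdd v)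
  rw [orderOf_ofAdd_eq_addOrderOf] at h
  exact h

/-- outside the kernel the order does not depend on `v` -/
lemma orderOf_mk [Finite V] {c : C} (hc : ∀ v : V, c • v = v → v = 0) (v : V) :
    orderOf (⟨c, v⟩ : SD C V) = orderOf c := by
  have hinj : Function.Injective (fun w : V => w - c • w) := by
    intro a b hab
    have h1 : c • (a - b) = a - b := by
      rw [smul_sub]
      have h2 : a - c • a = b - c • b := hab
      have h3 : a - b = c • a - c • b := by
        have : a = c • a + (b - c • b) := by rw [← h2]; abel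
        rw [sub_eq_iff_eq_add]
        calc a = c • a + (b - c • b) := this
          _ = c • a - c • b + b := by abel
      exact h3.symm
    exact sub_eq_zero.mp (hc _ h1)
  obtain ⟨w, hw⟩ := Finite.surjective_of_injective hinj v
  have h1 : (⟨c, v⟩ : SD C V) = ⟨1, w⟩ * inC c * (⟨1, w⟩ : SD C V)⁻¹ := by
    simp only [inC, MonoidHom.coe_mk, OneHom.coe_mk, mul_def, inv_def, one_mul, inv_one, mul_one,
      smul_zero, add_zero, one_smul, smul_neg]
    rw [← hw]
    simp only [sub_eq_add_neg]
  have h2 : orderOf (MulAut.conj (⟨1, w⟩ : SD C V) (inC c)) = orderOf (inC c : SD C V) :=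
    MulEquiv.orderOf_eq _ _
  rw [h1, ← MulAut.conj_apply, h2, orderOf_inC]

/-- **Key inequality.** If a Heilbronn function on the affine group depends only on the order of the
element, then its value at the order of `c` is at most the average over `V` in absolute value. -/
theorem key [Finite C] [Fintype V] {θ : SD C V → ℂ} (hθ : IsHeilbronn θ) (f : ℕ → ℝ)
    (hf : ∀ x, θ x = f (orderOf x)) {c : C} (hc : ∀ v : V, c • v = v → v = 0) :
    |f (orderOf c)| * Fintype.card V ≤ ∑ v : V, f (addOrderOf v) := by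
  classical
  let N : Subgroup (SD C V) := (pr : SD C V →* C).ker
  have hN : ∀ n : N, (n : SD C V).c = 1 := fun n => MonoidHom.mem_ker.mp n.2
  let φ : V ≃ N := ⟨fun v => ⟨⟨1, v⟩, MonoidHom.mem_ker.mpr rfl⟩, fun n => (n : SD C V).v,
    fun v => rfl, fun n => by
      apply Subtype.ext
      apply SD.ext
      · exact (hN n).symm
      · rfl⟩
  have : Fintype N := Fintype.ofFinite N
  have hcN : Nat.card N = Fintype.card V := by
    rw [← Nat.card_congr φ, Nat.card_eq_fintype_card]
  have hV : (0 : ℝ) < Fintype.card V := by exact_mod_cast Fintype.card_pos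
  have hVc : ((Fintype.card V : ℕ) : ℂ) ≠ 0 := by exact_mod_cast hV.ne'
  have h1 := (hθ.avg N).norm_le ((inC c : SD C V) : SD C V ⧸ N)
  rw [← QuotientGroup.mk_one, avg_mk, avg_mk, finsum_eq_sum_of_fintype,
    finsum_eq_sum_of_fintype, hcN] at h1
  have hcN' : Fintype.card N = Fintype.card V := by rw [← hcN, Nat.card_eq_fintype_card]
  have h2 : ∀ n : N, θ (inC c * (n : SD C V)) = f (orderOf c) := by
    intro n
    rw [hf]
    congr 2
    have : (inC c * (n : SD C V)) = ⟨c, c • (n : SD C V).v⟩ := by
      rw [mul_def]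
      simp only [inC, MonoidHom.coe_mk, OneHom.coe_mk, hN n, mul_one, zero_add]
    rw [this, orderOf_mk hc]
  have h3 : ∑ n : N, θ (1 * (n : SD C V)) = ((∑ v : V, f (addOrderOf v) : ℝ) : ℂ) := by
    rw [← Equiv.sum_comp φ, Complex.ofReal_sum]
    refine Finset.sum_congr rfl fun v _ => ?_
    rw [one_mul, hf]
    congr 2
    exact orderOf_inV v
  rw [Finset.sum_congr rfl (fun n _ => h2 n), h3, Finset.sum_const, Finset.card_univ, nsmul_eq_mul,
    hcN', ← mul_assoc, inv_mul_cancel₀ hVc, one_mul, Complex.norm_real,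
    Real.norm_eq_abs] at h1
  have h4 : (((Fintype.card V : ℕ) : ℂ)⁻¹ * ((∑ v : V, f (addOrderOf v) : ℝ) : ℂ)).re =
      (Fintype.card V : ℝ)⁻¹ * ∑ v : V, f (addOrderOf v) := by
    have : (((Fintype.card V : ℕ) : ℂ)⁻¹ * ((∑ v : V, f (addOrderOf v) : ℝ) : ℂ)) =
        (((Fintype.card V : ℝ)⁻¹ * ∑ v : V, f (addOrderOf v) : ℝ) : ℂ) := by
      push_cast
      rfl
    rw [this, Complex.ofReal_re]
  rw [h4] at h1
  calc |f (orderOf c)| * Fintype.card V
      ≤ ((Fintype.card V : ℝ)⁻¹ * ∑ v : V, f (addOrderOf v)) * Fintype.card V :=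
        mul_le_mul_of_nonneg_right h1 hV.le
    _ = ∑ v : V, f (addOrderOf v) := by field_simp

end SD

end Pool.Agent.Y786.FR
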