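import Pool.Agent.Y786.FR.SD

set_option autoImplicit false

/-!
# The upper bound: sum zero functions with the cyclic shift
-/

namespace Pool.Agent.Y786.FR

open Pool.Agent.H302R2

/-- functions `ℤ/p → (ℤ/n)^j` with sum zero -/
def SZ (p n j : ℕ) [NeZero p] : AddSubgroup (ZMod p → Fin j → ZMod n) where
  carrier := {v | ∑ i, v i = 0}
  zero_mem' := by simp
  add_mem' := by
    intro a b ha hb
    simp only [Set.mem_ofPred_eq, Pi.add_apply, Finset.sum_add_distrib] at *
    rw [ha, hb, add_zero]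
  neg_mem' := by
    intro a ha
    simp only [Set.mem_ofPred_eq, Pi.neg_apply, Finset.sum_neg_distrib] at *
    rw [ha, neg_zero]

lemma mem_SZ {p n j : ℕ} [NeZero p] {v : ZMod p → Fin j → ZMod n} :
    v ∈ SZ p n j ↔ ∑ i, v i = 0 := Iff.rfl

/-- the shift -/
def sh {p n j : ℕ} [NeZero p] (c : Multiplicative (ZMod p)) (v : SZ p n j) : SZ p n j :=
  ⟨fun i => v.1 (i + c.toAdd), by
    rw [mem_SZ]
    exact (Equiv.sum_comp (Equiv.addRight c.toAdd) (fun i => v.1 i)).trans v.2⟩

instance {p n j : ℕ} [NeZero p] : DistribMulAction (Multiplicative (ZMod p)) (SZ p n j) where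
  smul c v := sh c v
  one_smul v := by
    apply Subtype.ext
    funext i
    change v.1 (i + 0) = v.1 i
    rw [add_zero]
  mul_smul a b v := by
    apply Subtype.ext
    funext i
    change v.1 (i + (a.toAdd + b.toAdd)) = v.1 (i + a.toAdd + b.toAdd)
    rw [add_assoc]
  smul_zero c := rfl
  smul_add c a b := rfl

lemma smul_apply {p n j : ℕ} [NeZero p] (c : Multiplicative (ZMod p)) (v : SZ p n j) (i : ZMod p) :
    (c • v).1 i = v.1 (i + c.toAdd) := rfl

lemma sz_free {p n j : ℕ} [NeZero p] [NeZero n] (hpn : Nat.Coprime p n) (v : SZ p n j)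
    (hv : (Multiplicative.ofAdd (1 : ZMod p)) • v = v) : v = 0 := by
  have h1 : ∀ i : ZMod p, v.1 (i + 1) = v.1 i := by
    intro i
    have := congrArg (fun w : SZ p n j => w.1 i) hv
    exact this
  have h2 : ∀ k : ℕ, v.1 (k : ZMod p) = v.1 0 := by
    intro k
    induction k with
    | zero => simp
    | succ k ih => rw [Nat.cast_succ, h1, ih]
  have h3 : ∀ i : ZMod p, v.1 i = v.1 0 := by
    intro i
    have := h2 i.val
    rwa [ZMod.natCast_zmod_val] at this
  have h4 : (p : ℕ) • v.1 0 = 0 := by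
    have h5 := v.2
    rw [mem_SZ, Finset.sum_congr rfl (fun i _ => h3 i), Finset.sum_const, Finset.card_univ,
      ZMod.card] at h5
    exact h5
  have h6 : v.1 0 = 0 := by
    funext k
    have h7 := congrFun h4 k
    rw [Pi.smul_apply, nsmul_eq_mul, Pi.zero_apply] at h7
    have h8 : IsUnit ((p : ℕ) : ZMod n) := (ZMod.isUnit_iff_coprime p n).mpr hpn
    rw [Pi.zero_apply]
    exact (h8.mul_right_eq_zero).mp h7
  apply Subtype.ext
  funext i
  rw [h3 i, h6]
  rfl

/-- evaluation at zero -/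
def ev {p n j : ℕ} [NeZero p] : SZ p n j →+ (Fin j → ZMod n) where
  toFun v := v.1 0
  map_zero' := rfl
  map_add' _ _ := rfl

lemma ev_surj {p n j : ℕ} [NeZero p] (hp : 1 < p) : Function.Surjective (ev : SZ p n j →+ _) := by
  classical
  intro b
  have : Fact (1 < p) := ⟨hp⟩
  refine ⟨⟨fun i => if i = 0 then b else if i = 1 then -b else 0, ?_⟩, ?_⟩
  · rw [mem_SZ]
    have h1 : ∀ i : ZMod p, (if i = 0 then b else if i = 1 then -b else 0) =
        (if i = 0 then b else 0) + (if i = 1 then -b else 0) := by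
      intro i
      by_cases h0 : i = 0
      · subst h0
        simp
      · simp [h0]
    rw [Finset.sum_congr rfl (fun i _ => h1 i), Finset.sum_add_distrib]
    simp
  · simp [ev]

lemma sz_order {p n j : ℕ} [NeZero p] [NeZero n] (v : SZ p n j) (k : Fin j)
    (hk : v.1 0 k = 1) : addOrderOf v = n := by
  apply Nat.dvd_antisymm
  · apply addOrderOf_dvd_of_nsmul_eq_zero
    apply Subtype.ext
    funext i l
    simp
  · have h1 := addOrderOf_nsmul_eq_zero v
    have h2 : ((addOrderOf v : ℕ) : ZMod n) = 0 := by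
      have h3 := congrArg (fun w : SZ p n j => w.1 0 k) h1
      simp only [AddSubgroup.coe_nsmul, Pi.smul_apply, hk, nsmul_eq_mul, mul_one] at h3
      exact h3
    exact (ZMod.natCast_eq_zero_iff _ _).mp h2

/-- most elements have order `n` -/
lemma sz_count {p n j : ℕ} [NeZero p] [NeZero n] (hp : 1 < p) [Fintype (SZ p n j)] :
    ((Finset.univ.filter (fun v : SZ p n j => addOrderOf v ≠ n)).card : ℝ) * (n : ℝ) ^ j ≤
      Fintype.card (SZ p n j) * ((n : ℝ) - 1) ^ j := by
  classical
  have h0 : (Finset.univ.filter (fun v : SZ p n j => addOrderOf v ≠ n)).card ≤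
      (Finset.univ.filter (fun v : SZ p n j => ∀ k, v.1 0 k ≠ 1)).card := by
    apply Finset.card_le_card
    intro v hv
    rw [Finset.mem_filter] at hv ⊢
    exact ⟨hv.1, fun k hk => hv.2 (sz_order v k hk)⟩
  let π : Multiplicative (SZ p n j) →* Multiplicative (Fin j → ZMod n) :=
    (ev : SZ p n j →+ _).toMultiplicative
  have hπ : Function.Surjective π := ev_surj hp
  have h1 := sum_comp_surj π hπ (fun b => if ∀ k, b.toAdd k ≠ 1 then (1 : ℂ) else 0)
  have h2 := sum_comp_surj π hπ (fun _ => (1 : ℂ))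
  have h3 : ∑ e : Multiplicative (SZ p n j), (if ∀ k, (π e).toAdd k ≠ 1 then (1 : ℂ) else 0) =
      (Finset.univ.filter (fun v : SZ p n j => ∀ k, v.1 0 k ≠ 1)).card := by
    rw [Finset.sum_boole]
    congr 1
    apply Finset.card_bij (fun h _ => h.toAdd)
    · intro a ha
      rw [Finset.mem_filter] at ha ⊢
      exact ⟨Finset.mem_univ _, ha.2⟩
    · intro a _ b _ hab
      exact hab
    · intro b hb
      rw [Finset.mem_filter] at hb
      exact ⟨Multiplicative.ofAdd b, Finset.mem_filter.mpr ⟨Finset.mem_univ _, hb.2⟩, rfl⟩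
  have h4 : ∑ h : Multiplicative (Fin j → ZMod n), (if ∀ k, h.toAdd k ≠ 1 then (1 : ℂ) else 0) =
      ((n - 1) ^ j : ℕ) := by
    rw [Finset.sum_boole]
    congr 1
    have h5 : (Finset.univ.filter (fun h : Multiplicative (Fin j → ZMod n) =>
        ∀ k, h.toAdd k ≠ 1)).card =
        (Fintype.piFinset (fun _ : Fin j => (Finset.univ.erase (1 : ZMod n)))).card := by
      apply Finset.card_bij (fun h _ => h.toAdd)
      · intro a ha
        rw [Finset.mem_filter] at ha
        rw [Fintype.mem_piFinset]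
        intro k
        exact Finset.mem_erase.mpr ⟨ha.2 k, Finset.mem_univ _⟩
      · intro a _ b _ hab
        exact hab
      · intro b hb
        rw [Fintype.mem_piFinset] at hb
        exact ⟨Multiplicative.ofAdd b, Finset.mem_filter.mpr ⟨Finset.mem_univ _,
          fun k => (Finset.mem_erase.mp (hb k)).1⟩, rfl⟩
    rw [h5, Fintype.card_piFinset, Finset.prod_const, Finset.card_erase_of_mem (Finset.mem_univ _),
      Finset.card_univ, Finset.card_univ, ZMod.card, Fintype.card_fin]
  rw [h3, h4] at h1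
  simp only [Finset.sum_const, Finset.card_univ, nsmul_eq_mul, mul_one] at h2
  have h6 : Fintype.card (Multiplicative (SZ p n j)) = Fintype.card (SZ p n j) :=
    Fintype.card_congr Multiplicative.toAdd
  have h7 : Fintype.card (Multiplicative (Fin j → ZMod n)) = n ^ j := by
    rw [Fintype.card_congr (Multiplicative.toAdd : Multiplicative (Fin j → ZMod n) ≃ _),
      Fintype.card_fun, ZMod.card, Fintype.card_fin]
  rw [h6, h7] at h2
  have h8 : (Finset.univ.filter (fun v : SZ p n j => ∀ k, v.1 0 k ≠ 1)).card =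
      Nat.card π.ker * (n - 1) ^ j := by exact_mod_cast h1
  have h9 : Fintype.card (SZ p n j) = Nat.card π.ker * n ^ j := by exact_mod_cast h2
  have h10 : 1 ≤ n := NeZero.one_le
  have h11 : ((n - 1 : ℕ) : ℝ) = (n : ℝ) - 1 := by push_cast [Nat.cast_sub h10]; ring
  have h12 : ((Finset.univ.filter (fun v : SZ p n j => addOrderOf v ≠ n)).card : ℝ) ≤
      Nat.card π.ker * ((n : ℝ) - 1) ^ j := by
    have : ((Finset.univ.filter (fun v : SZ p n j => addOrderOf v ≠ n)).card : ℝ) ≤
        ((Nat.card π.ker * (n - 1) ^ j : ℕ) : ℝ) := by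
      exact_mod_cast h0.trans h8.le
    rw [Nat.cast_mul, Nat.cast_pow, h11] at this
    exact this
  have h13 : (Fintype.card (SZ p n j) : ℝ) = Nat.card π.ker * (n : ℝ) ^ j := by
    rw [h9]; push_cast; ring
  rw [h13]
  have h14 : (0 : ℝ) ≤ (n : ℝ) ^ j := by positivity
  calc ((Finset.univ.filter (fun v : SZ p n j => addOrderOf v ≠ n)).card : ℝ) * (n : ℝ) ^ j
      ≤ (Nat.card π.ker * ((n : ℝ) - 1) ^ j) * (n : ℝ) ^ j := mul_le_mul_of_nonneg_right h12 h14
    _ = _ := by ring

/-- **Upper bound.** -/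
theorem upper {p n j : ℕ} [NeZero p] [NeZero n] (hp : 1 < p) (hpn : Nat.Coprime p n)
    {θ : SD (Multiplicative (ZMod p)) (SZ p n j) → ℂ} (hθ : IsHeilbronn θ) (f : ℕ → ℝ)
    (hf : ∀ x, θ x = f (orderOf x)) (h1 : ∀ d, f d ≤ f 1) :
    (f 1 - f n) * ((n : ℝ) ^ j - ((n : ℝ) - 1) ^ j) ≤ (f 1 - f p) * (n : ℝ) ^ j := by
  classical
  have : Fintype (SZ p n j) := Fintype.ofFinite _
  have hk := SD.key hθ f hf (c := Multiplicative.ofAdd (1 : ZMod p)) (sz_free hpn)
  rw [orderOf_ofAdd_eq_addOrderOf, ZMod.addOrderOf_one] at hk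
  have hn : (0 : ℝ) < n := by exact_mod_cast NeZero.pos n
  have hV : (0 : ℝ) < Fintype.card (SZ p n j) := by exact_mod_cast Fintype.card_pos
  have h2 := sz_count (p := p) (n := n) (j := j) hp
  set V : ℝ := ((Fintype.card (SZ p n j) : ℕ) : ℝ) with hVdef
  set b : ℝ := ((Finset.univ.filter (fun v : SZ p n j => addOrderOf v ≠ n)).card : ℝ) with hb
  have h3 : ∑ v : SZ p n j, f (addOrderOf v) ≤ (V - b) * f n + b * f 1 := by
    have h4 : ∀ v : SZ p n j, f (addOrderOf v) ≤
        f n + (if addOrderOf v ≠ n then (f 1 - f n) else 0) := by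
      intro v
      by_cases hv : addOrderOf v = n
      · simp [hv]
      · rw [if_pos hv]
        have := h1 (addOrderOf v)
        linarith
    refine (Finset.sum_le_sum (fun v _ => h4 v)).trans ?_
    rw [Finset.sum_add_distrib, Finset.sum_const, Finset.card_univ, nsmul_eq_mul,
      ← Finset.sum_filter, Finset.sum_const, nsmul_eq_mul, ← hb, ← hVdef]
    linarith
  have h5 : f p * V ≤ (V - b) * f n + b * f 1 := by
    refine le_trans ?_ h3
    exact (mul_le_mul_of_nonneg_right (le_abs_self _) hV.le).trans hk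
  have h6 : 0 ≤ f 1 - f n := by have := h1 n; linarith
  have h7 : (f 1 - f n) * (V - b) ≤ (f 1 - f p) * V := by linarith
  have h8 : (0 : ℝ) < (n : ℝ) ^ j := by positivity
  -- multiply by `n ^ j`
  have h9 : (f 1 - f n) * (V * ((n : ℝ) ^ j - ((n : ℝ) - 1) ^ j)) ≤ ((f 1 - f p) * V) * (n : ℝ) ^ j := by
    refine le_trans ?_ (mul_le_mul_of_nonneg_right h7 h8.le)
    rw [mul_assoc]
    apply mul_le_mul_of_nonneg_left _ h6
    linarith
  have h10 : V * ((f 1 - f n) * ((n : ℝ) ^ j - ((n : ℝ) - 1) ^ j)) ≤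
      V * ((f 1 - f p) * (n : ℝ) ^ j) := by linarith
  exact le_of_mul_le_mul_left h10 hV

end Pool.Agent.Y786.FR
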